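import Pool.Agent.N936.TC.Stm

/-! The digit-flip maps are homeomorphisms. -/

set_option autoImplicit false

namespace Pool.Agent.N519.TC.HOMEO

open Set Topology Pool.Agent.N936.TC

/-- The inverse map. -/
noncomputable def inv (typ : ℕ → Bool) (wd : ℕ → ℕ → Bool) (i : Bool) (y : Q) (n : ℕ) : Bool :=
  Nat.strongRecOn n fun n ih => if typ n = i ∧ ∀ k (h : k < n), ih k h = wd n k then !(y n) else y n

theorem inv_eq (typ : ℕ → Bool) (wd : ℕ → ℕ → Bool) (i : Bool) (y : Q) (n : ℕ) :
    inv typ wd i y n =
      if typ n = i ∧ ∀ k < n, inv typ wd i y k = wd n k then !(y n) else y n := by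
  conv_lhs => rw [inv, Nat.strongRecOn_eq]
  rfl

theorem right (typ : ℕ → Bool) (wd : ℕ → ℕ → Bool) (i : Bool) (y : Q) :
    sgf typ wd i (inv typ wd i y) = y := by
  funext n
  rw [sgf]
  by_cases h : typ n = i ∧ ∀ k < n, inv typ wd i y k = wd n k
  · rw [if_pos h, inv_eq, if_pos h, Bool.not_not]
  · rw [if_neg h, inv_eq, if_neg h]

theorem left (typ : ℕ → Bool) (wd : ℕ → ℕ → Bool) (i : Bool) (x : Q) :
    inv typ wd i (sgf typ wd i x) = x := by
  funext n
  induction n using Nat.strong_induction_on with
  | _ n ih =>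
    rw [inv_eq]
    have h1 : (typ n = i ∧ ∀ k < n, inv typ wd i (sgf typ wd i x) k = wd n k) ↔
        (typ n = i ∧ ∀ k < n, x k = wd n k) := by
      refine and_congr_right fun _ => forall_congr' fun k => forall_congr' fun hk => ?_
      rw [ih k hk]
    by_cases h : typ n = i ∧ ∀ k < n, x k = wd n k
    · rw [if_pos (h1.2 h), sgf, if_pos h, Bool.not_not]
    · rw [if_neg (fun h' => h (h1.1 h')), sgf, if_neg h]

theorem cont (typ : ℕ → Bool) (wd : ℕ → ℕ → Bool) (i : Bool) :
    Continuous (sgf typ wd i) := by
  refine continuous_pi fun n => ?_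
  have hcl : IsClopen {x : Q | typ n = i ∧ ∀ k < n, x k = wd n k} := by
    by_cases h : typ n = i
    · have e : {x : Q | typ n = i ∧ ∀ k < n, x k = wd n k} =
          ⋂ k ∈ Finset.range n, (fun x : Q => x k) ⁻¹' {wd n k} := by
        ext x
        simp [h]
      rw [e]
      refine isClopen_biInter_finset fun k _ => ?_
      exact (isClopen_discrete _).preimage (continuous_apply k)
    · have e : {x : Q | typ n = i ∧ ∀ k < n, x k = wd n k} = ∅ := by
        ext x
        simp [h]
      rw [e]
      exact isClopen_empty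
  change Continuous fun x : Q => if typ n = i ∧ ∀ k < n, x k = wd n k then !(x n) else x n
  refine Continuous.if ?_ ?_ ?_
  · intro x hx
    rw [hcl.frontier_eq] at hx
    exact absurd hx (notMem_empty x)
  · have h1 : Continuous fun x : Q => x n := continuous_apply n
    have h2 : Continuous fun b : Bool => !b := continuous_of_discreteTopology
    exact h2.comp h1
  · exact continuous_apply n

theorem t_homeo : S_HOMEO := by
  intro typ wd
  let E : Bool → Q ≃ Q := fun i =>
    { toFun := sgf typ wd i
      invFun := inv typ wd i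
      left_inv := left typ wd i
      right_inv := right typ wd i }
  exact ⟨fun i => Continuous.homeoOfEquivCompactToT2 (f := E i) (cont typ wd i), fun i x => rfl⟩

end Pool.Agent.N519.TC.HOMEO
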